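import Pool.Agent.Helper54.PT.DefsF
import Pool.Agent.Helper82.TW.D2

/-! MP_1d384c_nt, module TE A1 (main_termO). -/

set_option autoImplicit false
set_option linter.unusedSectionVars false

namespace Pool.Agent.Helper54.PT

open Finset Filter Topology Pool.Agent.Helper82.TWD2

section

variable {σ : Type} [Fintype σ] [DecidableEq σ] {J : Type} [Fintype J] [DecidableEq J]

theorem te_case_zero (τ : (J → ZMod 2) →+ (J → Option σ → ZMod 2)) (hτ : GenericO τ)
    (𝒰 : Finset ((J → ZMod 2) × (J → ZMod 2))) (h1 : Unl PhiJ 𝒰)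
    (h2 : 𝒰.card = 2 ^ Fintype.card J) (h3 : ¬ IsStd 𝒰) (h3' : ¬ IsStd3 𝒰)
    (b η : Option σ → J → ZMod 2) (μ : Option σ → ZMod 2) (n : ℕ) :
    Pool.Agent.Helper54.PT.mt (thet τ b η μ) 𝒰 n = 0 := by
  obtain ⟨s, hr⟩ := hτ 𝒰 h1 h2 h3 h3'
  unfold Pool.Agent.Helper54.PT.mt
  rw [dif_neg]
  rintro ⟨γ, hγ⟩
  cases s with
  | some r =>
    refine hr ⟨η (some r), b (some r), μ (some r), fun u hu => ?_⟩
    have h4 := (hγ u hu).1 r
    simp only [thet, sum_add_distrib, mul_sub, sum_sub_distrib] at h4 ⊢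
    have h5 : ∑ j, u.2 j * b (some r) j = ∑ j, b (some r) j * u.2 j :=
      sum_congr rfl fun j _ => mul_comm _ _
    rw [h5] at h4
    linear_combination -h4
  | none =>
    refine hr ⟨η none, b none, μ none - γ, fun u hu => ?_⟩
    have h4 := (hγ u hu).2
    simp only [thet, sum_add_distrib, mul_sub, sum_sub_distrib] at h4 ⊢
    have h5 : ∑ j, u.2 j * b none j = ∑ j, b none j * u.2 j :=
      sum_congr rfl fun j _ => mul_comm _ _
    rw [h5] at h4
    linear_combination -h4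

open Classical in
/-- A1: the finite main term, with genericity at all places -/
theorem main_termO (τ : (J → ZMod 2) →+ (J → Option σ → ZMod 2))
    (H : (Option σ → J → ZMod 2) → (Option σ → J → ZMod 2) → (Option σ → ZMod 2) → Prop)
    (hτ : GenericO τ)
    (hH : ∀ κ : Option σ → ZMod 2, (univ.filter fun x : (Option σ → J → ZMod 2) ×
      (Option σ → J → ZMod 2) => H x.1 x.2 κ).card ≤
        2 ^ (Fintype.card J * (Fintype.card σ + 1))) (κ₀ : σ → ZMod 2) (n : ℕ) :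
    ‖∑ 𝒰 ∈ maxU (PhiJ (ℓ := 2) (J := J)) (2 ^ Fintype.card J),
      ∑ b : Option σ → J → ZMod 2, ∑ η : Option σ → J → ZMod 2, ∑ μ : Option σ → ZMod 2,
        hatH (Hk H κ₀) b η μ * mt (thet τ b η μ) 𝒰 n‖ * 2 ^ Fintype.card σ ≤
          3 * (2 : ℝ) ^ Fintype.card J := by
  have hH' : ∀ κ : Option σ → ZMod 2, ∑ x : (Option σ → J → ZMod 2) × (Option σ → J → ZMod 2),
      (if H x.1 x.2 κ then (1 : ℝ) else 0) ≤
        (2 : ℝ) ^ (Fintype.card J * (Fintype.card σ + 1)) := by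
    intro κ
    rw [← sum_filter, sum_const, nsmul_eq_mul, mul_one]
    exact_mod_cast hH κ
  have hstd : ∀ 𝒰 ∈ maxU (PhiJ (ℓ := 2) (J := J)) (2 ^ Fintype.card J),
      ‖∑ b : Option σ → J → ZMod 2, ∑ η : Option σ → J → ZMod 2, ∑ μ : Option σ → ZMod 2,
        hatH (Hk H κ₀) b η μ * Pool.Agent.Helper54.PT.mt (thet τ b η μ) 𝒰 n‖ *
          2 ^ Fintype.card σ ≤ if IsStd 𝒰 ∨ IsStd3 𝒰 then (1 : ℝ) else 0 := by
    intro 𝒰 h𝒰
    have h1 : Unl PhiJ 𝒰 ∧ 𝒰.card = 2 ^ Fintype.card J := by simpa [maxU] using h𝒰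
    split_ifs with h
    · rcases h with (⟨v₀, hv⟩ | ⟨w₀, hw⟩) | ⟨w₀, hw⟩
      · exact case_one τ H v₀ 𝒰 hv κ₀ n
      · exact case_phi τ H hH' κ₀ 𝒰 (fun _ => w₀) hw n
      · refine case_phi τ H hH' κ₀ 𝒰 (fun v j => w₀ j + v j + ∑ i, v i) (fun u => ?_) n
        rw [hw]
        exact funext_iff.symm
    · rw [not_or] at h
      simp only [te_case_zero τ hτ 𝒰 h1.1 h1.2 h.1 h.2, mul_zero, sum_const_zero, norm_zero,
        zero_mul, le_refl]
  have hle : ‖∑ 𝒰 ∈ maxU (PhiJ (ℓ := 2) (J := J)) (2 ^ Fintype.card J),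
      ∑ b : Option σ → J → ZMod 2, ∑ η : Option σ → J → ZMod 2, ∑ μ : Option σ → ZMod 2,
        hatH (Hk H κ₀) b η μ * mt (thet τ b η μ) 𝒰 n‖ * 2 ^ Fintype.card σ ≤
      ∑ 𝒰 ∈ maxU (PhiJ (ℓ := 2) (J := J)) (2 ^ Fintype.card J),
        if IsStd 𝒰 ∨ IsStd3 𝒰 then (1 : ℝ) else 0 := by
    refine (mul_le_mul_of_nonneg_right (norm_sum_le _ _) (by positivity)).trans ?_
    rw [sum_mul]
    exact sum_le_sum hstd
  refine hle.trans ?_
  rw [← sum_filter, sum_const, nsmul_eq_mul, mul_one]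
  have hsub : (maxU (PhiJ (ℓ := 2) (J := J)) (2 ^ Fintype.card J)).filter
        (fun 𝒰 => IsStd 𝒰 ∨ IsStd3 𝒰) ⊆
      (univ.image fun v₀ : J → ZMod 2 =>
        (univ.filter fun u : (J → ZMod 2) × (J → ZMod 2) => u.1 = v₀)) ∪
      (univ.image fun w₀ : J → ZMod 2 =>
        (univ.filter fun u : (J → ZMod 2) × (J → ZMod 2) => u.2 = w₀)) ∪
      (univ.image fun w₀ : J → ZMod 2 =>
        (univ.filter fun u : (J → ZMod 2) × (J → ZMod 2) =>
          ∀ j, u.2 j = w₀ j + u.1 j + ∑ i, u.1 i)) := by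
    intro 𝒰 h𝒰
    rw [mem_union, mem_union, mem_image, mem_image, mem_image]
    rcases (mem_filter.1 h𝒰).2 with (⟨v₀, hv⟩ | ⟨w₀, hw⟩) | ⟨w₀, hw⟩
    · left
      left
      refine ⟨v₀, mem_univ _, ?_⟩
      ext u
      rw [mem_filter, hv]
      simp
    · left
      right
      refine ⟨w₀, mem_univ _, ?_⟩
      ext u
      rw [mem_filter, hw]
      simp
    · right
      refine ⟨w₀, mem_univ _, ?_⟩
      ext u
      rw [mem_filter, hw]
      simp
  have hcard : ((maxU (PhiJ (ℓ := 2) (J := J)) (2 ^ Fintype.card J)).filter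
      (fun 𝒰 => IsStd 𝒰 ∨ IsStd3 𝒰)).card ≤ 3 * 2 ^ Fintype.card J := by
    refine (card_le_card hsub).trans ((card_union_le _ _).trans ?_)
    have c0 := card_union_le (univ.image fun v₀ : J → ZMod 2 =>
        (univ.filter fun u : (J → ZMod 2) × (J → ZMod 2) => u.1 = v₀))
      (univ.image fun w₀ : J → ZMod 2 =>
        (univ.filter fun u : (J → ZMod 2) × (J → ZMod 2) => u.2 = w₀))
    have c1 := card_image_le (s := (univ : Finset (J → ZMod 2))) (f := fun v₀ : J → ZMod 2 =>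
        (univ.filter fun u : (J → ZMod 2) × (J → ZMod 2) => u.1 = v₀))
    have c2 := card_image_le (s := (univ : Finset (J → ZMod 2))) (f := fun w₀ : J → ZMod 2 =>
        (univ.filter fun u : (J → ZMod 2) × (J → ZMod 2) => u.2 = w₀))
    have c4 := card_image_le (s := (univ : Finset (J → ZMod 2))) (f := fun w₀ : J → ZMod 2 =>
        (univ.filter fun u : (J → ZMod 2) × (J → ZMod 2) =>
          ∀ j, u.2 j = w₀ j + u.1 j + ∑ i, u.1 i))
    have c3 : (univ : Finset (J → ZMod 2)).card = 2 ^ Fintype.card J := by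
      rw [card_univ, Fintype.card_fun, ZMod.card]
    omega
  exact_mod_cast hcard

end

end Pool.Agent.Helper54.PT
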